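import Pool.Agent.K3h5.FF.Stm

/-!
# Bound for the expected number of occurrences, and exact sum over letters
-/

set_option autoImplicit false

open Filter Topology Set

namespace Pool.Agent.K3h51.FF

open Pool.Agent.K3h5.FF

theorem pr_mono {n : ℕ} {P : Equiv.Perm (Fin n) → ℝ} (hP : ∀ π, 0 ≤ P π)
    {A B : Set (Equiv.Perm (Fin n))} (h : A ⊆ B) : pr P A ≤ pr P B := by
  classical
  unfold pr
  apply Finset.sum_le_sum
  intro π _
  by_cases hA : π ∈ A
  · rw [if_pos hA, if_pos (h hA)]
  · rw [if_neg hA]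
    split_ifs
    · exact hP π
    · exact le_rfl

theorem pr_empty {n : ℕ} (P : Equiv.Perm (Fin n) → ℝ) : pr P ∅ = 0 := by
  classical
  unfold pr
  apply Finset.sum_eq_zero
  intro π _
  rw [if_neg (Set.notMem_empty π)]

/-- the position forced by the mark -/
theorem labP_pos {n : ℕ} {π : Equiv.Perm (Fin n)} {x : Label} {a : ℤ} (h : LabP π x a) :
    ∃ p : Fin n, (((π p : Fin n) : ℕ) : ℤ) = a ∧
      ∀ π' : Equiv.Perm (Fin n), LabP π' x a → (((π' p : Fin n) : ℕ) : ℤ) = a := by
  cases x with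
  | inl k =>
    obtain ⟨p, h1, h2⟩ := h
    refine ⟨p, h1, ?_⟩
    rintro π' ⟨p', h3, h4⟩
    have h5 : p' = p := by
      apply Fin.ext
      omega
    rw [h5] at h3
    exact h3
  | inr j =>
    obtain ⟨p, h1, h2⟩ := h
    refine ⟨p, h2, ?_⟩
    rintro π' ⟨p', h3, h4⟩
    have h5 : p' = p := by
      apply Fin.ext
      omega
    rw [h5] at h4
    exact h4

theorem part1 (P : (n : ℕ) → Equiv.Perm (Fin n) → ℝ) (C : ℝ) (hC : 1 ≤ C)
    (hP : ∀ n π, 0 ≤ P n π)
    (hb : ∀ (n l : ℕ) (p a : Fin l → Fin n), Function.Injective p →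
      Function.Injective a → pr (P n) {π | ∀ i, π (p i) = a i} ≤ C ^ l / (n.descFactorial l : ℝ))
    (n l : ℕ) (u : Fin l → Label) (a : Fin l → ℤ) (ha : Function.Injective a) :
    pr (P n) {π | ∀ i, LabP π (u i) (a i)} ≤ C ^ l / (n.descFactorial l : ℝ) := by
  rcases Set.eq_empty_or_nonempty {π : Equiv.Perm (Fin n) | ∀ i, LabP π (u i) (a i)} with h0 | h0
  · rw [h0, pr_empty]
    positivity
  · obtain ⟨π₀, h1⟩ := h0
    have h2 := fun i => labP_pos (h1 i)
    choose p hp hp2 using h2
    have hpinj : Function.Injective p := by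
      intro i j hij
      apply ha
      rw [← hp i, ← hp j, hij]
    refine le_trans (pr_mono (hP n) ?_) (hb n l p (fun i => π₀ (p i)) hpinj
      (π₀.injective.comp hpinj))
    intro π hπ i
    have h3 := hp2 i π (hπ i)
    have h4 := hp i
    apply Fin.ext
    have h5 : (((π (p i) : Fin n) : ℕ) : ℤ) = (((π₀ (p i) : Fin n) : ℕ) : ℤ) := by rw [h3, h4]
    exact_mod_cast h5

open Classical in
theorem ncard_occ (S n l : ℕ) (u : Fin l → Label) (π : Equiv.Perm (Fin n)) :
    (occ (LabT S π) u).ncard = (Finset.univ.filter fun a : Fin l → Fin n =>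
      (StrictMono a ∧ ∀ i, 2 * S < (a i).val) ∧ ∀ i, LabP π (u i) ((a i : ℕ) : ℤ)).card := by
  have hinj : Function.Injective (fun (a : Fin l → Fin n) (i : Fin l) => ((a i : ℕ) : ℤ)) := by
    intro a b hab
    funext i
    apply Fin.ext
    have h0 : ((a i : ℕ) : ℤ) = ((b i : ℕ) : ℤ) := congrFun hab i
    exact_mod_cast h0
  have h1 : occ (LabT S π) u = (fun (a : Fin l → Fin n) (i : Fin l) => ((a i : ℕ) : ℤ)) ''
      ((Finset.univ.filter fun a : Fin l → Fin n =>
        (StrictMono a ∧ ∀ i, 2 * S < (a i).val) ∧ ∀ i, LabP π (u i) ((a i : ℕ) : ℤ) :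
          Finset (Fin l → Fin n)) : Set (Fin l → Fin n)) := by
    ext z
    simp only [occ, LabT, Set.mem_ofPred_eq, Set.mem_image, Finset.coe_filter, Finset.mem_univ,
      true_and]
    constructor
    · rintro ⟨hz, hL⟩
      have h2 : ∀ i, ∃ a : Fin n, ((a : ℕ) : ℤ) = z i := by
        intro i
        obtain ⟨p, hp, -⟩ := labP_pos (hL i).1
        exact ⟨_, hp⟩
      choose a ha using h2
      refine ⟨a, ⟨⟨?_, ?_⟩, ?_⟩, ?_⟩
      · intro i j hij
        have := hz hij
        rw [← ha i, ← ha j] at this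
        exact_mod_cast this
      · intro i
        have := (hL i).2
        rw [← ha i] at this
        exact_mod_cast this
      · intro i
        rw [ha i]
        exact (hL i).1
      · funext i
        exact ha i
    · rintro ⟨a, ⟨⟨h2, h3⟩, h4⟩, rfl⟩
      refine ⟨?_, ?_⟩
      · intro i j hij
        have := h2 hij
        simp only
        exact_mod_cast this
      · intro i
        refine ⟨h4 i, ?_⟩
        have h5 := h3 i
        show (2 * S : ℤ) < ((a i : ℕ) : ℤ)
        exact_mod_cast h5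
  rw [h1, Set.ncard_image_of_injective _ hinj, Set.ncard_coe_finset]

theorem part3 (P : (n : ℕ) → Equiv.Perm (Fin n) → ℝ) (S n l : ℕ) (u : Fin l → Label) :
    ET P S n u = ∑ a : Fin l → Fin n,
    open Classical in if StrictMono a ∧ ∀ i, 2 * S < (a i).val then
      pr (P n) {π | ∀ i, LabP π (u i) ((a i : ℕ) : ℤ)} else 0 := by
  classical
  unfold ET
  have h1 : ∀ π : Equiv.Perm (Fin n), P n π * ((occ (LabT S π) u).ncard : ℝ) =
      ∑ a : Fin l → Fin n, if (StrictMono a ∧ ∀ i, 2 * S < (a i).val) ∧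
        ∀ i, LabP π (u i) ((a i : ℕ) : ℤ) then P n π else 0 := by
    intro π
    rw [ncard_occ, ← Finset.sum_filter, Finset.sum_const, nsmul_eq_mul, mul_comm]
  rw [Finset.sum_congr rfl (fun π _ => h1 π), Finset.sum_comm]
  apply Finset.sum_congr rfl
  intro a _
  by_cases h : StrictMono a ∧ ∀ i, 2 * S < (a i).val
  · rw [if_pos h]
    unfold pr
    apply Finset.sum_congr rfl
    intro π _
    by_cases h2 : ∀ i, LabP π (u i) ((a i : ℕ) : ℤ)
    · rw [if_pos ⟨h, h2⟩, if_pos (show π ∈ {π | ∀ i, LabP π (u i) ((a i : ℕ) : ℤ)} from h2)]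
    · rw [if_neg (fun h3 => h2 h3.2),
        if_neg (show ¬ π ∈ {π | ∀ i, LabP π (u i) ((a i : ℕ) : ℤ)} from h2)]
  · rw [if_neg h]
    apply Finset.sum_eq_zero
    intro π _
    rw [if_neg (fun h3 => h h3.1)]

open Classical in
theorem card_strict (n l : ℕ) :
    (Finset.univ.filter fun a : Fin l → Fin n => StrictMono a).card ≤ n.choose l := by
  have h1 : ((Finset.univ : Finset (Fin n)).powersetCard l).card = n.choose l := by
    rw [Finset.card_powersetCard, Finset.card_univ, Fintype.card_fin]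
  rw [← h1]
  apply Finset.card_le_card_of_injOn (fun a : Fin l → Fin n => Finset.univ.image a)
  · intro a ha
    have ha2 : StrictMono a := (Finset.mem_filter.1 (Finset.mem_coe.1 ha)).2
    rw [Finset.mem_coe, Finset.mem_powersetCard]
    refine ⟨Finset.subset_univ _, ?_⟩
    rw [Finset.card_image_of_injective _ ha2.injective, Finset.card_univ, Fintype.card_fin]
  · intro a ha b hb hab
    have ha2 : StrictMono a := (Finset.mem_filter.1 (Finset.mem_coe.1 ha)).2
    have hb2 : StrictMono b := (Finset.mem_filter.1 (Finset.mem_coe.1 hb)).2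
    apply (StrictMono.range_inj ha2 hb2).1
    have h2 := congrArg (fun s : Finset (Fin n) => (s : Set (Fin n))) hab
    simpa using h2

theorem t_ETB : S_ETB := by
  intro P C hC hP hb
  have hp1 := part1 P C hC hP hb
  refine ⟨hp1, ?_, part3 P⟩
  intro S n l u
  classical
  have hC0 : 0 ≤ C := by linarith
  rw [part3 P S n l u, ← Finset.sum_filter]
  have h1 : ∀ a ∈ Finset.univ.filter (fun a : Fin l → Fin n =>
      StrictMono a ∧ ∀ i, 2 * S < (a i).val),
      pr (P n) {π | ∀ i, LabP π (u i) ((a i : ℕ) : ℤ)} ≤ C ^ l / (n.descFactorial l : ℝ) := by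
    intro a ha
    have ha2 : StrictMono a := (Finset.mem_filter.1 ha).2.1
    apply hp1 n l u (fun i => ((a i : ℕ) : ℤ))
    intro i j hij
    apply ha2.injective
    apply Fin.ext
    have h0 : ((a i : ℕ) : ℤ) = ((a j : ℕ) : ℤ) := hij
    exact_mod_cast h0
  refine (Finset.sum_le_sum h1).trans ?_
  rw [Finset.sum_const, nsmul_eq_mul]
  have h2 : (Finset.univ.filter (fun a : Fin l → Fin n =>
      StrictMono a ∧ ∀ i, 2 * S < (a i).val)).card ≤ n.choose l := by
    refine le_trans (Finset.card_le_card ?_) (card_strict n l)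
    intro a ha
    rw [Finset.mem_filter] at ha ⊢
    exact ⟨ha.1, ha.2.1⟩
  have h3 : ((Finset.univ.filter (fun a : Fin l → Fin n =>
      StrictMono a ∧ ∀ i, 2 * S < (a i).val)).card : ℝ) ≤ (n.choose l : ℝ) := by
    exact_mod_cast h2
  refine (mul_le_mul_of_nonneg_right h3 (by positivity)).trans ?_
  rw [Nat.descFactorial_eq_factorial_mul_choose, Nat.cast_mul]
  have hf : (0 : ℝ) < (l.factorial : ℝ) := by exact_mod_cast l.factorial_pos
  rcases Nat.eq_zero_or_pos (n.choose l) with h0 | h0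
  · rw [h0]
    simp only [Nat.cast_zero, zero_mul]
    positivity
  · have h4 : (0 : ℝ) < (n.choose l : ℝ) := by exact_mod_cast h0
    apply le_of_eq
    field_simp

end Pool.Agent.K3h51.FF
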